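import Mathlib
import Pool.Agent.Helper99.SZ.Stmts3

/-! Module SEL. -/

set_option autoImplicit false

namespace Pool.Helper99.SZ

open Submodule

/-- linear algebra: a finite set of integer vectors contains `v0` independent ones, or two of its
elements are congruent modulo `q` times their span, or it is small -/
theorem sel_lin (n v0 q : ℕ) (hv0 : 1 ≤ v0) (hq : 1 ≤ q) (F : Finset (Fin n → ℤ)) :
    (∃ z : Fin v0 → Fin n → ℤ, LinearIndependent ℤ z ∧ ∀ i, z i ∈ F) ∨
    (∃ x ∈ F, ∃ x' ∈ F, ∃ y : Fin n → ℤ, y ≠ 0 ∧ x - x' = (q : ℤ) • y) ∨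
    F.card ≤ q ^ (v0 - 1) := by
  classical
  have : NeZero q := ⟨by omega⟩
  -- the embedding into ℚ ^ n
  let ι : (Fin n → ℤ) →ₗ[ℤ] (Fin n → ℚ) :=
    { toFun := fun z i => (z i : ℚ)
      map_add' := by intro a b; funext i; simp
      map_smul' := by intro a b; funext i; simp }
  have hιinj : Function.Injective ι := by
    intro a b h
    funext i
    have h2 : ((a i : ℤ) : ℚ) = ((b i : ℤ) : ℚ) := congrFun h i
    exact Int.cast_injective h2
  obtain ⟨b, hbF, hbs, hbl⟩ := exists_linearIndependent ℚ (ι '' (F : Set (Fin n → ℤ)))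
  have hbfin : b.Finite := (F.finite_toSet.image ι).subset hbF
  have : Fintype b := hbfin.fintype
  by_cases hcard : v0 ≤ Fintype.card b
  · left
    obtain ⟨e⟩ : Nonempty (Fin v0 ↪ b) := by
      apply Function.Embedding.nonempty_of_card_le
      simpa using hcard
    have hch : ∀ i : Fin v0, ∃ z : Fin n → ℤ, z ∈ F ∧ ι z = (e i : Fin n → ℚ) := by
      intro i
      obtain ⟨z, hz, hz'⟩ := hbF (e i).2
      exact ⟨z, hz, hz'⟩
    choose z hzF hz using hch
    refine ⟨z, ?_, hzF⟩
    have h1 : LinearIndependent ℚ (fun i : Fin v0 => ((e i : b) : Fin n → ℚ)) :=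
      hbl.comp e e.injective
    have h2 : LinearIndependent ℤ (fun i : Fin v0 => ((e i : b) : Fin n → ℚ)) :=
      (LinearIndependent.iff_fractionRing ℤ ℚ).2 h1
    have h3 : (ι ∘ z) = fun i : Fin v0 => ((e i : b) : Fin n → ℚ) := by
      funext i; exact hz i
    rw [← h3] at h2
    exact LinearIndependent.of_comp ι h2
  · right
    push Not at hcard
    set M : Submodule ℤ (Fin n → ℤ) := span ℤ (F : Set (Fin n → ℤ)) with hM
    let B := Module.finBasis ℤ M
    have hr : Module.finrank ℤ M ≤ Fintype.card b := by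
      have h1 : LinearIndependent ℤ (fun i => ι ((B i : M) : Fin n → ℤ)) := by
        have h2 : LinearIndependent ℤ (fun i => ((B i : M) : Fin n → ℤ)) :=
          B.linearIndependent.map' M.subtype (Submodule.ker_subtype M)
        exact h2.map' ι (LinearMap.ker_eq_bot.2 hιinj)
      have h3 : LinearIndependent ℚ (fun i => ι ((B i : M) : Fin n → ℤ)) :=
        (LinearIndependent.iff_fractionRing ℤ ℚ).1 h1
      have h4 : Set.range (fun i => ι ((B i : M) : Fin n → ℤ)) ⊆ ↑(span ℚ b) := by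
        rintro _ ⟨i, rfl⟩
        rw [SetLike.mem_coe, hbs]
        have h5 : ∀ x ∈ M, ι x ∈ span ℚ (ι '' (F : Set (Fin n → ℤ))) := by
          intro x hx
          induction hx using Submodule.span_induction with
          | mem x hx => exact subset_span ⟨x, hx, rfl⟩
          | zero => rw [map_zero]; exact zero_mem _
          | add x y _ _ hx hy => rw [map_add]; exact add_mem hx hy
          | smul a x _ hx =>
            rw [map_smul]
            have : a • ι x = (a : ℚ) • ι x := by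
              funext i; simp
            rw [this]
            exact smul_mem _ _ hx
        exact h5 _ (B i).2
      have h6 := linearIndependent_le_span' _ h3 b h4
      rw [Cardinal.mk_fintype, Fintype.card_fin] at h6
      exact_mod_cast h6
    by_cases hF : q ^ (Module.finrank ℤ M) < F.card
    · left
      have hmem : ∀ x : {x // x ∈ F}, (x : Fin n → ℤ) ∈ M := fun x => subset_span x.2
      let gg : {x // x ∈ F} → (Fin (Module.finrank ℤ M) → ZMod q) :=
        fun x i => ((B.repr ⟨x, hmem x⟩ i : ℤ) : ZMod q)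
      obtain ⟨x, x', hne, hxx⟩ := Fintype.exists_ne_map_eq_of_card_lt gg (by
        rw [Fintype.card_coe, Fintype.card_pi]
        simpa [ZMod.card] using hF)
      have hdiv : ∀ i, (q : ℤ) ∣ B.repr ⟨x, hmem x⟩ i - B.repr ⟨x', hmem x'⟩ i := by
        intro i
        have h1 := congrFun hxx i
        exact (ZMod.intCast_eq_intCast_iff_dvd_sub _ _ q).1 h1.symm
      choose c hc using hdiv
      let y : M := ∑ i, c i • B i
      have hy : (⟨x, hmem x⟩ : M) - ⟨x', hmem x'⟩ = (q : ℤ) • y := by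
        apply B.repr.injective
        apply Finsupp.ext
        intro i
        rw [map_sub, map_smul, Finsupp.sub_apply, Finsupp.smul_apply, hc i]
        have : B.repr y i = c i := by
          show B.repr (∑ i, c i • B i) i = c i
          rw [map_sum, Finsupp.finsetSum_apply]
          rw [Finset.sum_eq_single i]
          · rw [map_smul, Module.Basis.repr_self]; simp
          · intro j _ hj
            rw [map_smul, Module.Basis.repr_self, Finsupp.smul_apply, Finsupp.single_apply,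
              if_neg hj, smul_zero]
          · intro h; exact absurd (Finset.mem_univ i) h
        rw [this, smul_eq_mul]
      have hy' : (x : Fin n → ℤ) - x' = (q : ℤ) • (y : Fin n → ℤ) := by
        have := congrArg (fun t : M => (t : Fin n → ℤ)) hy
        simpa using this
      refine ⟨x, x.2, x', x'.2, y, ?_, hy'⟩
      intro h0
      rw [h0, smul_zero, sub_eq_zero] at hy'
      exact hne (Subtype.ext hy')
    · right
      push Not at hF
      refine hF.trans ?_
      apply Nat.pow_le_pow_right hq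
      omega

theorem st_SEL : ST_SEL := by
  classical
  intro n nrm hadd hsm hfin h10 X0 ρ0 w hX0 hw hgr v0 q hv0 hq
  have hz : nrm 0 = 0 := by
    have := hsm 0 0
    simpa using this
  have hneg : ∀ a, nrm (-a) = nrm a := by
    intro a
    have := hsm (-1) a
    simpa using this
  have hnn : ∀ a, 0 ≤ nrm a := by
    intro a
    have h1 := hadd a (-a)
    rw [add_neg_cancel, hz, hneg] at h1
    linarith
  have hsub : ∀ a b, nrm (a - b) ≤ nrm a + nrm b := by
    intro a b
    have := hadd a (-b)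
    rwa [hneg, ← sub_eq_add_neg] at this
  set h' : ℝ := nrm (1, 0) with hh'
  -- the scale
  obtain ⟨Q, hQ⟩ := exists_nat_ge (2 * max (max ρ0 h') 1 / w)
  rw [div_le_iff₀ hw] at hQ
  set ρ : ℝ := Q * w / 2 with hρ
  have hρm : max (max ρ0 h') 1 ≤ ρ := by rw [hρ]; linarith
  have hρ0 : ρ0 ≤ ρ := ((le_max_left _ _).trans (le_max_left _ _)).trans hρm
  have hρh : h' ≤ ρ := ((le_max_right _ _).trans (le_max_left _ _)).trans hρm
  have hρ1 : 1 ≤ ρ := (le_max_right _ _).trans hρm
  have hρp : 0 < ρ := by linarith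
  have hQ1 : 1 ≤ Q := by
    rcases Nat.eq_zero_or_pos Q with h | h
    · exfalso; rw [h] at hρ; norm_num at hρ; linarith
    · exact h
  have hQR : (0 : ℝ) < Q := by exact_mod_cast hQ1
  have : NeZero Q := ⟨by omega⟩
  set S : Finset (ℤ × (Fin n → ℤ)) := (hfin ρ).toFinset with hS
  have hSc : ρ ^ (n + 1) ≤ X0 * (S.card : ℝ) := by
    have := hgr ρ hρ0
    rwa [Set.ncard_eq_toFinset_card _ (hfin ρ)] at this
  have hSp : 0 < (S.card : ℝ) := by
    have h1 : 0 < ρ ^ (n + 1) := by positivity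
    by_contra hcon
    have : (S.card : ℝ) ≤ 0 := not_lt.1 hcon
    nlinarith
  -- pigeonhole
  obtain ⟨c, _, hc⟩ := Finset.exists_le_card_fiber_of_nsmul_le_card_of_maps_to (s := S)
    (t := (Finset.univ : Finset (Fin n → ZMod Q))) (f := fun a i => ((a.2 i : ℤ) : ZMod Q))
    (b := (S.card : ℝ) / (Q : ℝ) ^ n) (fun a _ => Finset.mem_univ _) Finset.univ_nonempty (by
      rw [Finset.card_univ, Fintype.card_pi]
      simp only [ZMod.card, Finset.prod_const, Finset.card_univ, Fintype.card_fin, nsmul_eq_mul]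
      push_cast
      rw [mul_div_cancel₀]
      positivity)
  set T : Finset (ℤ × (Fin n → ℤ)) :=
    S.filter (fun a => (fun i => ((a.2 i : ℤ) : ZMod Q)) = c) with hT
  have hTp : 0 < (T.card : ℝ) := by
    refine lt_of_lt_of_le ?_ hc
    positivity
  obtain ⟨a0, ha0⟩ : T.Nonempty := by
    rw [← Finset.card_pos]; exact_mod_cast hTp
  have hTS : ∀ a ∈ T, nrm a ≤ ρ := by
    intro a ha
    rw [hT, Finset.mem_filter, hS, Set.Finite.mem_toFinset] at ha
    exact ha.1
  have hTc : ∀ a ∈ T, ∀ i, (Q : ℤ) ∣ a.2 i - a0.2 i := by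
    intro a ha i
    have h1 := (Finset.mem_filter.1 ha).2
    have h2 := (Finset.mem_filter.1 ha0).2
    have h3 : ((a.2 i : ℤ) : ZMod Q) = ((a0.2 i : ℤ) : ZMod Q) := by
      rw [congrFun h1 i, congrFun h2 i]
    exact (ZMod.intCast_eq_intCast_iff_dvd_sub _ _ Q).1 h3.symm
  let zf : ℤ × (Fin n → ℤ) → (Fin n → ℤ) := fun a i => (a.2 i - a0.2 i) / (Q : ℤ)
  have hzf : ∀ a ∈ T, (Q : ℤ) • zf a = a.2 - a0.2 := by
    intro a ha
    funext i
    show (Q : ℤ) * ((a.2 i - a0.2 i) / (Q : ℤ)) = a.2 i - a0.2 i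
    exact Int.mul_ediv_cancel' (hTc a ha i)
  have hnl : ∀ a ∈ T, nl nrm (zf a) w := by
    intro a ha
    refine ⟨Q, hQ1, a.1 - a0.1, ?_⟩
    rw [hzf a ha]
    have h1 : ((a.1 - a0.1, a.2 - a0.2) : ℤ × (Fin n → ℤ)) = a - a0 := rfl
    rw [h1]
    have h2 := hsub a a0
    have h3 := hTS a ha
    have h4 := hTS a0 ha0
    rw [hρ] at h3 h4
    linarith
  -- fibres
  have hfib : T.card ≤ (⌊2 * ρ / h'⌋₊ + 1) * (T.image zf).card := by
    apply Finset.card_le_mul_card_image
    intro z _
    rcases (T.filter (fun a => zf a = z)).eq_empty_or_nonempty with h | h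
    · rw [h]; simp
    obtain ⟨a1, ha1, hmin⟩ := Finset.exists_min_image (T.filter (fun a => zf a = z))
      (fun a => a.1) h
    have hcard : (Finset.Icc a1.1 (a1.1 + (⌊2 * ρ / h'⌋₊ : ℤ))).card = ⌊2 * ρ / h'⌋₊ + 1 := by
      rw [Int.card_Icc]; omega
    rw [← hcard]
    have h2eq : ∀ a ∈ T.filter (fun a => zf a = z), a.2 = a1.2 := by
      intro a ha
      have e1 := hzf a (Finset.mem_filter.1 ha).1
      have e2 := hzf a1 (Finset.mem_filter.1 ha1).1
      rw [(Finset.mem_filter.1 ha).2] at e1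
      rw [(Finset.mem_filter.1 ha1).2] at e2
      have e3 : a.2 - a0.2 = a1.2 - a0.2 := by rw [← e1, ← e2]
      exact sub_left_injective e3
    apply Finset.card_le_card_of_injOn (fun a => a.1)
    · intro a ha
      have ha' := Finset.mem_coe.1 ha
      have g1 := hmin a ha'
      have g2 : a - a1 = (a.1 - a1.1) • ((1, 0) : ℤ × (Fin n → ℤ)) := by
        apply Prod.ext
        · show a.1 - a1.1 = (a.1 - a1.1) * 1
          ring
        · show a.2 - a1.2 = (a.1 - a1.1) • (0 : Fin n → ℤ)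
          rw [h2eq a ha', sub_self, smul_zero]
      have g3 := hsub a a1
      rw [g2, hsm] at g3
      have g4 := hTS a (Finset.mem_filter.1 ha').1
      have g5 := hTS a1 (Finset.mem_filter.1 ha1).1
      have g6 : (0 : ℝ) ≤ ((a.1 - a1.1 : ℤ) : ℝ) := by exact_mod_cast (by linarith : (0:ℤ) ≤ a.1 - a1.1)
      rw [abs_of_nonneg g6] at g3
      have g7 : ((a.1 - a1.1 : ℤ) : ℝ) ≤ 2 * ρ / h' := by
        rw [le_div_iff₀ h10]; linarith
      have g8 : (a.1 - a1.1) ≤ (⌊2 * ρ / h'⌋₊ : ℤ) := by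
        have g9 : (a.1 - a1.1).toNat ≤ ⌊2 * ρ / h'⌋₊ := by
          apply Nat.le_floor
          have : (((a.1 - a1.1).toNat : ℤ) : ℝ) = ((a.1 - a1.1 : ℤ) : ℝ) := by
            rw [Int.toNat_of_nonneg (by linarith)]
          have e : (((a.1 - a1.1).toNat : ℕ) : ℝ) = ((a.1 - a1.1 : ℤ) : ℝ) := by
            rw [← this]; push_cast; rfl
          rw [e]; exact g7
        omega
      rw [Finset.mem_coe, Finset.mem_Icc]
      constructor
      · exact g1
      · show a.1 ≤ _
        linarith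
    · intro a ha b hb hab
      exact Prod.ext hab ((h2eq a (Finset.mem_coe.1 ha)).trans (h2eq b (Finset.mem_coe.1 hb)).symm)
  have hFbig : (w / 2) ^ n * h' ≤ 3 * X0 * ((T.image zf).card : ℝ) := by
    have g1 : ((⌊2 * ρ / h'⌋₊ : ℕ) : ℝ) ≤ 2 * ρ / h' := Nat.floor_le (by positivity)
    have g2 : (1 : ℝ) ≤ ρ / h' := by rw [le_div_iff₀ h10]; linarith
    have g3 : ((⌊2 * ρ / h'⌋₊ + 1 : ℕ) : ℝ) ≤ 3 * ρ / h' := by
      push_cast
      have : 3 * ρ / h' = 2 * ρ / h' + ρ / h' := by ring
      rw [this]; linarith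
    have g4 : (T.card : ℝ) ≤ (3 * ρ / h') * ((T.image zf).card : ℝ) := by
      have : (T.card : ℝ) ≤ ((⌊2 * ρ / h'⌋₊ + 1 : ℕ) : ℝ) * ((T.image zf).card : ℝ) := by
        exact_mod_cast hfib
      refine this.trans ?_
      exact mul_le_mul_of_nonneg_right g3 (Nat.cast_nonneg _)
    have g5 : (S.card : ℝ) ≤ (Q : ℝ) ^ n * ((3 * ρ / h') * ((T.image zf).card : ℝ)) := by
      have := hc.trans g4
      rw [div_le_iff₀ (by positivity)] at this
      linarith
    have g6 : ρ ^ (n + 1) ≤ X0 * ((Q : ℝ) ^ n * ((3 * ρ / h') * ((T.image zf).card : ℝ))) :=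
      hSc.trans (mul_le_mul_of_nonneg_left g5 hX0.le)
    have g7 : ρ ^ (n + 1) = ρ * ((Q : ℝ) ^ n * (w / 2) ^ n) := by
      rw [pow_succ, ← mul_pow, hρ]
      have : (Q : ℝ) * w / 2 = Q * (w / 2) := by ring
      rw [this]; ring
    rw [g7] at g6
    have g8 : X0 * ((Q : ℝ) ^ n * ((3 * ρ / h') * ((T.image zf).card : ℝ))) =
        ρ * ((Q : ℝ) ^ n * (3 * X0 * ((T.image zf).card : ℝ) / h')) := by ring
    rw [g8] at g6
    have g9 := le_of_mul_le_mul_left g6 hρp
    have g10 := le_of_mul_le_mul_left g9 (by positivity : (0 : ℝ) < (Q : ℝ) ^ n)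
    rwa [le_div_iff₀ h10] at g10
  rcases sel_lin n v0 q hv0 hq (T.image zf) with h | h | h
  · left
    obtain ⟨z, hzl, hzF⟩ := h
    refine ⟨z, hzl, fun i => ?_⟩
    obtain ⟨a, ha, hza⟩ := Finset.mem_image.1 (hzF i)
    rw [← hza]
    exact hnl a ha
  · right; left
    obtain ⟨x, hx, x', hx', y, hy0, hy⟩ := h
    obtain ⟨a, ha, rfl⟩ := Finset.mem_image.1 hx
    obtain ⟨a', ha', rfl⟩ := Finset.mem_image.1 hx'
    refine ⟨y, hy0, Q * q, Nat.mul_pos hQ1 hq, a.1 - a'.1, ?_⟩
    have e1 : ((Q * q : ℕ) : ℤ) • y = a.2 - a'.2 := by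
      have e2 : ((Q * q : ℕ) : ℤ) • y = (Q : ℤ) • ((q : ℤ) • y) := by
        rw [smul_smul]; push_cast; rfl
      rw [e2, ← hy, smul_sub, hzf a ha, hzf a' ha']
      abel
    rw [e1]
    have e3 : ((a.1 - a'.1, a.2 - a'.2) : ℤ × (Fin n → ℤ)) = a - a' := rfl
    rw [e3]
    have e4 := hsub a a'
    have e5 := hTS a ha
    have e6 := hTS a' ha'
    have hqR : (0 : ℝ) < q := by exact_mod_cast hq
    have e7 : ((Q * q : ℕ) : ℝ) * (2 * w / q) = 2 * (Q * w) := by
      push_cast; field_simp
    rw [e7]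
    rw [hρ] at e5 e6
    linarith
  · right; right
    refine hFbig.trans ?_
    have : ((T.image zf).card : ℝ) ≤ (q : ℝ) ^ (v0 - 1) := by exact_mod_cast h
    exact mul_le_mul_of_nonneg_left this (by positivity)

end Pool.Helper99.SZ
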